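import Mathlib

set_option autoImplicit false

namespace Pool.Agent.H18.Xray

/-- The lattice point `x` as a point of the real plane. -/
def emb (x : ℤ × ℤ) : ℝ × ℝ := ((x.1 : ℝ), (x.2 : ℝ))

/-- `F` is a convex lattice set: `F = conv F ∩ ℤ²`. -/
def IsConvexLatticeSet (F : Finset (ℤ × ℤ)) : Prop :=
  ∀ x : ℤ × ℤ, x ∈ F ↔ emb x ∈ convexHull ℝ (emb '' (F : Set (ℤ × ℤ)))

/-- `F` is disjoint from every line through two distinct points of `P`. -/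
def AvoidsLines (P F : Finset (ℤ × ℤ)) : Prop :=
  ∀ p ∈ P, ∀ q ∈ P, p ≠ q → ∀ x ∈ F, emb x ∉ affineSpan ℝ ({emb p, emb q} : Set (ℝ × ℝ))

/-- `F₁` and `F₂` have the same discrete point X-ray at `p`. -/
def SameXray (p : ℤ × ℤ) (F₁ F₂ : Finset (ℤ × ℤ)) : Prop :=
  ∀ l : AffineSubspace ℝ (ℝ × ℝ), Module.finrank ℝ l.direction = 1 → emb p ∈ l →
    Set.ncard {x : ℤ × ℤ | x ∈ F₁ ∧ emb x ∈ l} = Set.ncard {x : ℤ × ℤ | x ∈ F₂ ∧ emb x ∈ l}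

/-- Discrete point X-rays at `P` determine convex lattice sets. -/
def Determines (P : Finset (ℤ × ℤ)) : Prop :=
  ∀ F₁ F₂ : Finset (ℤ × ℤ), IsConvexLatticeSet F₁ → IsConvexLatticeSet F₂ →
    AvoidsLines P F₁ → AvoidsLines P F₂ → (∀ p ∈ P, SameXray p F₁ F₂) → F₁ = F₂

end Pool.Agent.H18.Xray
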