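import Mathlib
import Pool.Agent.H18.Xray.Defs

set_option autoImplicit false

namespace Pool.Agent.H18.Xray

open Set

def det (p a b : ℤ × ℤ) : ℤ := (a.1 - p.1) * (b.2 - p.2) - (a.2 - p.2) * (b.1 - p.1)

theorem emb_inj : Function.Injective emb := by
  intro x y h
  simp only [emb, Prod.mk.injEq, Int.cast_inj] at h
  exact Prod.ext h.1 h.2

def lin (u v : ℝ) : (ℝ × ℝ) →ₗ[ℝ] ℝ := u • LinearMap.fst ℝ ℝ ℝ + v • LinearMap.snd ℝ ℝ ℝ

theorem lin_apply (u v : ℝ) (z : ℝ × ℝ) : lin u v z = u * z.1 + v * z.2 := by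
  simp [lin]

theorem finite_hull (S : Finset (ℤ × ℤ)) :
    {x : ℤ × ℤ | emb x ∈ convexHull ℝ (emb '' (S : Set (ℤ × ℤ)))}.Finite := by
  have hb : Bornology.IsBounded (convexHull ℝ (emb '' (S : Set (ℤ × ℤ)))) :=
    isBounded_convexHull.2 (S.finite_toSet.image _).isBounded
  obtain ⟨R, hR⟩ := hb.exists_norm_le
  obtain ⟨N, hN⟩ := exists_nat_ge R
  refine ((Set.finite_Icc (-(N : ℤ)) N).prod (Set.finite_Icc (-(N : ℤ)) N)).subset ?_
  intro x hx
  have h := (hR _ hx).trans hN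
  rw [Prod.norm_def, max_le_iff] at h
  obtain ⟨h1, h2⟩ := h
  simp only [emb, Real.norm_eq_abs, abs_le] at h1 h2
  refine ⟨⟨?_, ?_⟩, ⟨?_, ?_⟩⟩
  · exact_mod_cast h1.1
  · exact_mod_cast h1.2
  · exact_mod_cast h2.1
  · exact_mod_cast h2.2

theorem convex_lt_or_eq (f : (ℝ × ℝ) →ₗ[ℝ] ℝ) (b : ℝ × ℝ) :
    Convex ℝ {z : ℝ × ℝ | f z < f b ∨ z = b} := by
  intro x hx y hy s t hs ht hst
  simp only [mem_ofPred_eq] at hx hy ⊢
  rcases hx with hx | rfl
  · rcases hy with hy | rfl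
    · left
      have := (convex_halfSpace_lt f.isLinear (f b)) hx hy hs ht hst
      exact this
    · rcases hs.eq_or_lt with h0 | h0
      · right
        have : t = 1 := by linarith
        subst h0; subst this; simp
      · left
        rw [map_add, map_smul, map_smul, smul_eq_mul, smul_eq_mul]
        have : f y = s * f y + t * f y := by rw [← add_mul, hst, one_mul]
        nlinarith
  · rcases hy with hy | rfl
    · rcases ht.eq_or_lt with h0 | h0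
      · right
        have : s = 1 := by linarith
        subst h0; subst this; simp
      · left
        rw [map_add, map_smul, map_smul, smul_eq_mul, smul_eq_mul]
        have : f x = s * f x + t * f x := by rw [← add_mul, hst, one_mul]
        nlinarith
    · right
      rw [← add_smul, hst, one_smul]

/-- Removing exposed vertices from the lattice points of a lattice polygon keeps a
convex lattice set. -/
theorem convex_sdiff (S B F : Finset (ℤ × ℤ))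
    (hF : ∀ x, x ∈ F ↔ emb x ∈ convexHull ℝ (emb '' (S : Set (ℤ × ℤ))))
    (hB : ∀ b ∈ B, ∃ f : (ℝ × ℝ) →ₗ[ℝ] ℝ, ∀ s ∈ S, s ≠ b → f (emb s) < f (emb b)) :
    IsConvexLatticeSet (F \ B) := by
  intro x
  constructor
  · intro hx
    exact subset_convexHull ℝ _ (mem_image_of_mem _ (by exact_mod_cast hx))
  · intro hx
    have hsub : emb '' ((F \ B : Finset (ℤ × ℤ)) : Set (ℤ × ℤ)) ⊆
        convexHull ℝ (emb '' (S : Set (ℤ × ℤ))) := by
      rintro _ ⟨y, hy, rfl⟩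
      have hy' : y ∈ F \ B := by exact_mod_cast hy
      exact (hF y).1 (Finset.mem_sdiff.1 hy').1
    have h1 : x ∈ F := (hF x).2 (convexHull_min hsub (convex_convexHull ℝ _) hx)
    refine Finset.mem_sdiff.2 ⟨h1, fun hxB => ?_⟩
    obtain ⟨f, hf⟩ := hB x hxB
    have hS : convexHull ℝ (emb '' (S : Set (ℤ × ℤ))) ⊆ {z : ℝ × ℝ | f z < f (emb x) ∨ z = emb x} := by
      refine convexHull_min ?_ (convex_lt_or_eq f _)
      rintro _ ⟨s, hs, rfl⟩
      by_cases h : s = x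
      · right; rw [h]
      · left; exact hf s hs h
    have h2 : convexHull ℝ (emb '' ((F \ B : Finset (ℤ × ℤ)) : Set (ℤ × ℤ))) ⊆
        {z : ℝ × ℝ | f z < f (emb x)} := by
      refine convexHull_min ?_ (convex_halfSpace_lt f.isLinear _)
      rintro _ ⟨y, hy, rfl⟩
      have hy' : y ∈ F \ B := by exact_mod_cast hy
      rcases hS ((hF y).1 (Finset.mem_sdiff.1 hy').1) with h | h
      · exact h
      · exact absurd (emb_inj h ▸ hxB) (Finset.mem_sdiff.1 hy').2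
    have h3 : f (emb x) < f (emb x) := h2 hx
    exact lt_irrefl _ h3

theorem avoids_of (P S F : Finset (ℤ × ℤ))
    (hF : ∀ x ∈ F, emb x ∈ convexHull ℝ (emb '' (S : Set (ℤ × ℤ))))
    (h : ∀ p ∈ P, ∀ q ∈ P, p ≠ q → ∃ f : (ℝ × ℝ) →ₗ[ℝ] ℝ, f (emb p) = f (emb q) ∧
      ∀ s ∈ S, f (emb p) < f (emb s)) : AvoidsLines P F := by
  intro p hp q hq hpq x hx hmem
  obtain ⟨f, hf1, hf2⟩ := h p hp q hq hpq
  have h1 : convexHull ℝ (emb '' (S : Set (ℤ × ℤ))) ⊆ {z : ℝ × ℝ | f (emb p) < f z} := by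
    refine convexHull_min ?_ (convex_halfSpace_gt f.isLinear _)
    rintro _ ⟨s, hs, rfl⟩
    exact hf2 s hs
  have h2 : f (emb p) < f (emb x) := h1 (hF x hx)
  obtain ⟨t, ht⟩ := mem_affineSpan_pair_iff_exists_lineMap_eq.1 hmem
  rw [← ht, AffineMap.lineMap_apply, vsub_eq_sub, vadd_eq_add, map_add, map_smul, map_sub,
    hf1] at h2
  simp at h2

theorem mem_line_iff (l : AffineSubspace ℝ (ℝ × ℝ)) (hl : Module.finrank ℝ l.direction = 1)
    (p x y : ℝ × ℝ) (hp : p ∈ l) (hx : x ∈ l) (hxp : x ≠ p) :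
    y ∈ l ↔ ∃ t : ℝ, t • (x - p) = y - p := by
  have hv : x - p ∈ l.direction := AffineSubspace.vsub_mem_direction hx hp
  have hv0 : (⟨x - p, hv⟩ : l.direction) ≠ 0 := by
    intro h
    apply hxp
    have := congrArg Subtype.val h
    simpa [sub_eq_zero] using this
  constructor
  · intro hy
    have hw : y - p ∈ l.direction := AffineSubspace.vsub_mem_direction hy hp
    obtain ⟨t, ht⟩ := (finrank_eq_one_iff_of_nonzero' _ hv0).1 hl ⟨y - p, hw⟩
    exact ⟨t, by simpa using congrArg Subtype.val ht⟩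
  · rintro ⟨t, ht⟩
    have : y = t • (x - p) +ᵥ p := by rw [ht]; simp
    rw [this]
    exact AffineSubspace.vadd_mem_of_mem_direction (Submodule.smul_mem _ _ hv) hp

theorem det_iff (p a b : ℤ × ℤ) (hap : a ≠ p) :
    (∃ t : ℝ, t • (emb a - emb p) = emb b - emb p) ↔ det p a b = 0 := by
  constructor
  · rintro ⟨t, ht⟩
    simp only [emb, Prod.mk_sub_mk, Prod.smul_mk, smul_eq_mul, Prod.mk.injEq] at ht
    have : ((det p a b : ℤ) : ℝ) = 0 := by
      simp only [det]; push_cast; rw [← ht.1, ← ht.2]; ring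
    exact_mod_cast this
  · intro h
    have h' : ((a.1 : ℝ) - p.1) * (b.2 - p.2) - (a.2 - p.2) * (b.1 - p.1) = 0 := by
      have : ((det p a b : ℤ) : ℝ) = 0 := by exact_mod_cast h
      simpa [det] using this
    by_cases h1 : a.1 = p.1
    · have h2 : a.2 ≠ p.2 := fun h2 => hap (Prod.ext h1 h2)
      have h2' : (a.2 : ℝ) - p.2 ≠ 0 := sub_ne_zero.2 (by exact_mod_cast h2)
      refine ⟨((b.2 : ℝ) - p.2) / (a.2 - p.2), ?_⟩
      simp only [emb, Prod.mk_sub_mk, Prod.smul_mk, smul_eq_mul, Prod.mk.injEq]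
      constructor
      · field_simp; linarith
      · field_simp
    · have h1' : (a.1 : ℝ) - p.1 ≠ 0 := sub_ne_zero.2 (by exact_mod_cast h1)
      refine ⟨((b.1 : ℝ) - p.1) / (a.1 - p.1), ?_⟩
      simp only [emb, Prod.mk_sub_mk, Prod.smul_mk, smul_eq_mul, Prod.mk.injEq]
      constructor
      · field_simp
      · field_simp; linarith

theorem ncard_eq_of (X Y : Set (ℤ × ℤ)) (hX : X.Subsingleton) (hY : Y.Subsingleton)
    (h1 : X.Nonempty → Y.Nonempty) (h2 : Y.Nonempty → X.Nonempty) : X.ncard = Y.ncard := by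
  rcases hX.eq_empty_or_singleton with rfl | ⟨a, rfl⟩
  · rcases hY.eq_empty_or_singleton with rfl | ⟨b, rfl⟩
    · rfl
    · exact absurd (h2 (singleton_nonempty b)) (by simp)
  · rcases hY.eq_empty_or_singleton with rfl | ⟨b, rfl⟩
    · exact absurd (h1 (singleton_nonempty a)) (by simp)
    · simp

theorem ncard_sdiff_eq (F A B : Finset (ℤ × ℤ)) (hA : A ⊆ F) (hB : B ⊆ F) (Q : ℤ × ℤ → Prop)
    (h : Set.ncard {x | x ∈ A ∧ Q x} = Set.ncard {x | x ∈ B ∧ Q x}) :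
    Set.ncard {x | x ∈ F \ B ∧ Q x} = Set.ncard {x | x ∈ F \ A ∧ Q x} := by
  have key : ∀ C : Finset (ℤ × ℤ), C ⊆ F →
      Set.ncard {x | x ∈ F \ C ∧ Q x} = Set.ncard {x | x ∈ F ∧ Q x} - Set.ncard {x | x ∈ C ∧ Q x} := by
    intro C hC
    rw [← Set.ncard_sdiff (s := {x | x ∈ C ∧ Q x}) (t := {x | x ∈ F ∧ Q x})
      (fun x hx => ⟨hC hx.1, hx.2⟩) (C.finite_toSet.subset (fun x hx => hx.1))]
    congr 1
    ext x
    simp only [Finset.mem_sdiff, mem_ofPred_eq, mem_sdiff]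
    tauto
  rw [key A hA, key B hB, h]

/-- The switching lemma. -/
theorem not_determines (P A B W : Finset (ℤ × ℤ)) (T : ℤ × ℤ → ℤ × ℤ) (c : ℝ × ℝ)
    (L : (ℝ × ℝ) ≃ₗ[ℝ] (ℝ × ℝ)) (hT : ∀ x, emb (T x) = c + L (emb x))
    (hne : ∃ a ∈ A, a ∉ B)
    (h1 : ∀ s ∈ A ∪ B, ∃ w ∈ W, ∀ s' ∈ A ∪ B, s' ≠ s →
      w.1 * s'.1 + w.2 * s'.2 < w.1 * s.1 + w.2 * s.2)
    (h2 : ∀ p ∈ P, ∀ q ∈ P, p ≠ q →
      (∀ s ∈ A ∪ B, 0 < det p q s) ∨ (∀ s ∈ A ∪ B, det p q s < 0))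
    (h3 : ∀ p ∈ P, p ∉ A ∧ p ∉ B ∧ (∀ a ∈ A, ∃ b ∈ B, det p a b = 0) ∧
      (∀ b ∈ B, ∃ a ∈ A, det p b a = 0) ∧
      (∀ a ∈ A, ∀ a' ∈ A, det p a a' = 0 → a = a') ∧
      (∀ b ∈ B, ∀ b' ∈ B, det p b b' = 0 → b = b')) :
    ¬ Determines (P.image T) := by
  classical
  have hTinj : Function.Injective T := by
    intro x y h
    have := hT x
    rw [h, hT y] at this
    exact emb_inj (L.injective (add_left_cancel this)).symm
  have hfun : ∀ (u v : ℝ) (x : ℤ × ℤ), ((lin u v) ∘ₗ (L.symm : (ℝ × ℝ) →ₗ[ℝ] (ℝ × ℝ))) (emb (T x)) =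
      lin u v (L.symm c) + (u * x.1 + v * x.2) := by
    intro u v x
    rw [hT]
    simp [lin_apply, emb]
    ring
  set S : Finset (ℤ × ℤ) := (A ∪ B).image T with hS
  set F : Finset (ℤ × ℤ) := (finite_hull S).toFinset with hFdef
  have hF : ∀ x, x ∈ F ↔ emb x ∈ convexHull ℝ (emb '' (S : Set (ℤ × ℤ))) := by
    intro x; simp [hFdef]
  have hSF : S ⊆ F := fun x hx => (hF x).2 (subset_convexHull ℝ _ (mem_image_of_mem _ hx))
  have hAF : A.image T ⊆ F := (Finset.image_subset_image Finset.subset_union_left).trans hSF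
  have hBF : B.image T ⊆ F := (Finset.image_subset_image Finset.subset_union_right).trans hSF
  have hexp : ∀ b ∈ S, ∃ f : (ℝ × ℝ) →ₗ[ℝ] ℝ, ∀ s ∈ S, s ≠ b → f (emb s) < f (emb b) := by
    intro b hb
    obtain ⟨b0, hb0, rfl⟩ := Finset.mem_image.1 hb
    obtain ⟨w, -, hw⟩ := h1 b0 hb0
    refine ⟨(lin w.1 w.2) ∘ₗ (L.symm : (ℝ × ℝ) →ₗ[ℝ] (ℝ × ℝ)), ?_⟩
    intro s hs hsb
    obtain ⟨s0, hs0, rfl⟩ := Finset.mem_image.1 hs
    rw [hfun, hfun]
    have := hw s0 hs0 (fun h => hsb (by rw [h]))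
    have h' : (w.1 : ℝ) * s0.1 + w.2 * s0.2 < w.1 * b0.1 + w.2 * b0.2 := by exact_mod_cast this
    linarith
  have hav : ∀ p ∈ P.image T, ∀ q ∈ P.image T, p ≠ q → ∃ f : (ℝ × ℝ) →ₗ[ℝ] ℝ,
      f (emb p) = f (emb q) ∧ ∀ s ∈ S, f (emb p) < f (emb s) := by
    intro p hp q hq hpq
    obtain ⟨p0, hp0, rfl⟩ := Finset.mem_image.1 hp
    obtain ⟨q0, hq0, rfl⟩ := Finset.mem_image.1 hq
    rcases h2 p0 hp0 q0 hq0 (fun h => hpq (by rw [h])) with h | h
    · refine ⟨(lin (-((q0.2 : ℝ) - p0.2)) ((q0.1 : ℝ) - p0.1)) ∘ₗ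
        (L.symm : (ℝ × ℝ) →ₗ[ℝ] (ℝ × ℝ)), ?_, ?_⟩
      · rw [hfun, hfun]; ring
      · intro s hs
        obtain ⟨s0, hs0, rfl⟩ := Finset.mem_image.1 hs
        rw [hfun, hfun]
        have h' : (0 : ℝ) < ((det p0 q0 s0 : ℤ) : ℝ) := by exact_mod_cast h s0 hs0
        simp only [det] at h'
        push_cast at h'
        linarith
    · refine ⟨(lin ((q0.2 : ℝ) - p0.2) (-((q0.1 : ℝ) - p0.1))) ∘ₗ
        (L.symm : (ℝ × ℝ) →ₗ[ℝ] (ℝ × ℝ)), ?_, ?_⟩
      · rw [hfun, hfun]; ring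
      · intro s hs
        obtain ⟨s0, hs0, rfl⟩ := Finset.mem_image.1 hs
        rw [hfun, hfun]
        have h' : ((det p0 q0 s0 : ℤ) : ℝ) < 0 := by exact_mod_cast h s0 hs0
        simp only [det] at h'
        push_cast at h'
        linarith
  intro hdet
  have hAS : A.image T ⊆ S := Finset.image_subset_image Finset.subset_union_left
  have hBS : B.image T ⊆ S := Finset.image_subset_image Finset.subset_union_right
  have heq := hdet (F \ B.image T) (F \ A.image T)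
    (convex_sdiff S _ F hF (fun b hb => hexp b (hBS hb)))
    (convex_sdiff S _ F hF (fun b hb => hexp b (hAS hb)))
    (avoids_of _ S _ (fun x hx => (hF x).1 (Finset.mem_sdiff.1 hx).1) hav)
    (avoids_of _ S _ (fun x hx => (hF x).1 (Finset.mem_sdiff.1 hx).1) hav) ?_
  · obtain ⟨a, haA, haB⟩ := hne
    have h : T a ∈ F \ B.image T := by
      refine Finset.mem_sdiff.2 ⟨hAF (Finset.mem_image_of_mem _ haA), fun h => haB ?_⟩
      obtain ⟨b, hb, hba⟩ := Finset.mem_image.1 h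
      exact hTinj hba ▸ hb
    rw [heq] at h
    exact (Finset.mem_sdiff.1 h).2 (Finset.mem_image_of_mem _ haA)
  · intro p hp l hl hpl
    obtain ⟨p0, hp0, rfl⟩ := Finset.mem_image.1 hp
    obtain ⟨hpA, hpB, hab, hba, haa, hbb⟩ := h3 p0 hp0
    have key : ∀ x y : ℤ × ℤ, x ≠ p0 → emb (T x) ∈ l → (emb (T y) ∈ l ↔ det p0 x y = 0) := by
      intro x y hx hxl
      rw [mem_line_iff l hl _ _ _ hpl hxl (fun h => hx (hTinj (emb_inj h))), ← det_iff p0 x y hx]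
      simp only [hT, add_sub_add_left_eq_sub, ← map_sub, ← map_smul, L.injective.eq_iff]
    apply ncard_sdiff_eq F _ _ hAF hBF (fun x => emb x ∈ l)
    apply ncard_eq_of
    · rintro x ⟨hx, hxl⟩ y ⟨hy, hyl⟩
      obtain ⟨x0, hx0, rfl⟩ := Finset.mem_image.1 hx
      obtain ⟨y0, hy0, rfl⟩ := Finset.mem_image.1 hy
      rw [haa x0 hx0 y0 hy0 ((key x0 y0 (fun h => hpA (h ▸ hx0)) hxl).1 hyl)]
    · rintro x ⟨hx, hxl⟩ y ⟨hy, hyl⟩
      obtain ⟨x0, hx0, rfl⟩ := Finset.mem_image.1 hx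
      obtain ⟨y0, hy0, rfl⟩ := Finset.mem_image.1 hy
      rw [hbb x0 hx0 y0 hy0 ((key x0 y0 (fun h => hpB (h ▸ hx0)) hxl).1 hyl)]
    · rintro ⟨x, hx, hxl⟩
      obtain ⟨x0, hx0, rfl⟩ := Finset.mem_image.1 hx
      obtain ⟨b, hb, hd⟩ := hab x0 hx0
      exact ⟨T b, Finset.mem_image_of_mem _ hb, (key x0 b (fun h => hpA (h ▸ hx0)) hxl).2 hd⟩
    · rintro ⟨x, hx, hxl⟩
      obtain ⟨x0, hx0, rfl⟩ := Finset.mem_image.1 hx
      obtain ⟨b, hb, hd⟩ := hba x0 hx0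
      exact ⟨T b, Finset.mem_image_of_mem _ hb, (key x0 b (fun h => hpB (h ▸ hx0)) hxl).2 hd⟩

end Pool.Agent.H18.Xray
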